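import Pool.Agent.MWA.StmtsB

/-!
Row HVR of squad MWA: absorption goes to later non-empty blocks.
-/

set_option autoImplicit false

namespace Pool.Agent.MWA.H21

open Pool.Agent.Helper14_MV Pool.Agent.Helper2_MV Pool.Agent.MVO Pool.Agent.MWL Pool.Agent.MWS
open Pool.Agent.MWA

theorem hvr (hT : MWL.TrnStmt) : HvrStmt := by
  intro θ hr k a i j hji hik hai hab
  rcases Nat.eq_or_lt_of_le hji with rfl | hlt
  · exact hab
  · set R := FC.ofFIC θ with hR
    have h0 : R.R 1 (v2 2 1) (v2 2 2) := hr
    have hf : BMap 1 k (fun t => if t = 0 then j else i) := by
      refine ⟨fun s t hst ht => ?_, fun t ht => ?_⟩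
      · show (if s = 0 then j else i) ≤ if t = 0 then j else i
        split_ifs <;> omega
      · show (if t = 0 then j else i) ≤ k
        split_ifs <;> omega
    have h1 := R.push k _ hf h0
    have hp : ∀ (v : ℕ → ℕ) (t : ℕ), psh 1 (fun t => if t = 0 then j else i) v t =
        (if j = t then v 0 else 0) + if i = t then v 1 else 0 := by
      intro v t
      unfold psh
      rw [Finset.sum_range_succ, Finset.sum_range_one]
      simp
    have h2 := R.add (fun t => a t - if t = i then 1 else 0) h1
    have h3 := R.add a h1
    have h4 : R.R k (a2 a j) (fun t => a2 a j t + if t = i then 1 else 0) := by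
      refine R.ext (fun t ht => ?_) (fun t ht => ?_) h2
      · rw [hp]
        simp only [a2, v2]
        by_cases e1 : t = i
        · subst e1
          have : j ≠ t := by omega
          have e3 : t ≠ j := by omega
          simp [this, e3]
          omega
        · by_cases e2 : t = j
          · subst e2
            have e4 : i ≠ t := by omega
            simp [e1, e4]
            omega
          · have e3 : j ≠ t := fun h => e2 h.symm
            have e4 : i ≠ t := fun h => e1 h.symm
            simp [e1, e2, e3, e4]
      · rw [hp]
        simp only [a2, v2]
        by_cases e1 : t = i
        · subst e1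
          have : j ≠ t := by omega
          have e3 : t ≠ j := by omega
          simp [this, e3]
          omega
        · by_cases e2 : t = j
          · subst e2
            have e4 : i ≠ t := by omega
            simp [e1, e4]
            omega
          · have e3 : j ≠ t := fun h => e2 h.symm
            have e4 : i ≠ t := fun h => e1 h.symm
            simp [e1, e2, e3, e4]
    have h5 : R.R k (fun t => a2 a j t + if t = i then 1 else 0) (ad 1 (a2 a j) i) := by
      refine R.ext (fun t ht => ?_) (fun t ht => ?_) h3
      · rw [hp]
        simp only [a2, v2]
        by_cases e1 : t = i
        · subst e1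
          have : j ≠ t := by omega
          have e3 : t ≠ j := by omega
          simp [this, e3]
          omega
        · by_cases e2 : t = j
          · subst e2
            have e4 : i ≠ t := by omega
            simp [e1, e4]
            omega
          · have e3 : j ≠ t := fun h => e2 h.symm
            have e4 : i ≠ t := fun h => e1 h.symm
            simp [e1, e2, e3, e4]
      · rw [hp]
        simp only [a2, v2, ad]
        by_cases e1 : t = i
        · subst e1
          have : j ≠ t := by omega
          have e3 : t ≠ j := by omega
          simp [this, e3]
          omega
        · by_cases e2 : t = j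
          · subst e2
            have e4 : i ≠ t := by omega
            simp [e1, e4]
            omega
          · have e3 : j ≠ t := fun h => e2 h.symm
            have e4 : i ≠ t := fun h => e1 h.symm
            simp [e1, e2, e3, e4]
    have h6 : Ab 1 R k (a2 a j) i := R.trans h4 h5
    exact ((hT 1 R k a i).1 (a2 a j) hab).2 h6

end Pool.Agent.MWA.H21
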